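import Pool.Agent.H60.BM.Sym

/-! Blocks of products: all products of generators belong to the cone. -/

set_option autoImplicit false
set_option maxRecDepth 1000000

namespace Pool.Agent.H60.BM

open Finset Polynomial
open Pool.Agent.N467.BL
open Pool.Agent.H60.BL
open Pool.Agent.N467.BL.ChkA (okVec_spec evN evN_pos lin1 lin2 K_forget)
open Pool.Agent.TH389.BL (ev evv toP K K_gen K_map Lin)

/-- the products of the table are vectors of the cone -/
def RepK (q : ℝ) : Prop := ∀ n, 2 ≤ n → n ≤ 6 → ∀ j, j < nR n →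
  okVec (kx n) (dlx n) (nlx n) (vecR n j) = true ∧
    (vecR n j).map (fun p => evZ p (Int.ofNat B1)) = valR n j ∧
    K q (Gx n) (wGx n) (decide (j < wR n)) (evv (vecR n j) q)

/-- what is needed about a type of gluing -/
structure TyOk (τ : Ty) : Prop where
  ok : okAll τ = true
  hD : τ.D.length + 1 ≤ 8
  hE : τ.E.length ≤ 12
  A2 : 2 ≤ τ.s + τ.m
  A6 : τ.s + τ.m ≤ 6
  B2 : 2 ≤ τ.s + τ.l
  B6 : τ.s + τ.l ≤ 6
  C2 : 2 ≤ τ.C.length
  C6 : τ.C.length ≤ 6

theorem tyOk {τ : Ty} (h : τ ∈ tys 6) : TyOk τ := by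
  obtain ⟨ds, h1⟩ := tys_chk h
  have h2 := List.all_eq_true.1 tys_bounds τ h
  simp only [Bool.and_eq_true] at h2
  obtain ⟨⟨⟨a1, a2⟩, ⟨a3, a4⟩⟩, ⟨a5, a6⟩⟩ := h2
  simp only [chkOne, Bool.and_eq_true] at h1
  obtain ⟨⟨⟨⟨h1, h2⟩, h3⟩, h4⟩, h5⟩ := h1
  exact ⟨okAllF_sound h1, Nat.le_of_ble_eq_true h2, Nat.le_of_ble_eq_true h3,
    Nat.le_of_ble_eq_true a1, Nat.le_of_ble_eq_true a2, Nat.le_of_ble_eq_true a3,
    Nat.le_of_ble_eq_true a4, Nat.le_of_ble_eq_true a5, Nat.le_of_ble_eq_true a6⟩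

/-- one product -/
theorem one_K {τ : Ty} (hτ : TyOk τ) {q : ℝ} (hq : 4 < q) (hR : RepK q) {g h : List (List ℤ)}
    (hg : okVec (kx (τ.s + τ.m)) 10 1045214 g = true) (hh : okVec (kx (τ.s + τ.l)) 10 1045214 h = true)
    {c j k : ℕ} (hc0 : 0 < c) (hc : c < 38) (hk : k < 2 * τ.C.length) (hj : j < nR τ.C.length)
    (hdc : (ctT.getD c []).length ≤ dcx τ.C.length)
    (hmod : dotM (Mnx τ.C.length) (h.map fun u => evZ u (Int.ofNat B1))
      (cols (Mnx τ.C.length) (tpkF (Mnx τ.C.length) B1 τ (Wnx τ.C.length))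
        (g.map fun u => evZ u (Int.ofNat B1))) % Mnx τ.C.length =
      (cv c * pku τ.C.length j k) % Mnx τ.C.length) :
    K q (Gx τ.C.length) (wGx τ.C.length) false (gR τ q (evv g q) (evv h q)) ∧
      (j < wR τ.C.length →
        K q (Gx τ.C.length) (wGx τ.C.length) true (gR τ q (evv g q) (evv h q))) := by
  obtain ⟨hv, hu, hK⟩ := hR τ.C.length hτ.C2 hτ.C6 j hj
  rw [pku_eq hu] at hmod
  have hid := pair_real hτ.ok hτ.hD hτ.hE hτ.A2 hτ.A6 hτ.B2 hτ.B6 hτ.C2 hτ.C6 hg hh hc0 hc hk hdc hv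
    hmod q
  have hcf := (ct_facts hc0 hc).1
  have hpos : 0 < evN (ctT.getD c []) (q - 4) := evN_pos _ (by linarith) hcf
  have h1 := vecP_K hτ.C2 hτ.C6 hk hv hK
  have h2 := K.smul _ _ _ hpos h1
  rw [hid]
  refine ⟨K_weaken' h2 fun h => by simp at h, fun hw => ?_⟩
  rw [decide_eq_true hw] at h2
  exact h2

theorem N6_len : N6.length = 36 := by decide +kernel

theorem N6_ok : (N6.all fun g => okVec 15 10 1045214 g) = true := by decide +kernel

theorem Gs_ok' : ∀ n ∈ [2, 3, 4, 5, 6], ((Gs n).all fun g => okVec (kx n) 10 1045214 g) = true := by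
  decide +kernel

/-- new times all -/
theorem A_sound {τ : Ty} (hτ : TyOk τ) {ds : List (ℕ × ℕ)} (h : chkA τ ds = true)
    (h6 : τ.s + τ.m = 6) {q : ℝ} (hq : 4 < q) (hR : RepK q) :
    ∀ a (ha : a < N6.length) i (hi : i < (Gx (τ.s + τ.l)).length),
      K q (Gx τ.C.length) (wGx τ.C.length) false (gR τ q (evv N6[a] q) (evv (Gx (τ.s + τ.l))[i] q)) ∧
      (i < wGx (τ.s + τ.l) → K q (Gx τ.C.length) (wGx τ.C.length) true
        (gR τ q (evv N6[a] q) (evv (Gx (τ.s + τ.l))[i] q))) := by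
  intro a ha i hi
  have e1 := of_decide_eq_true hn6_ok
  have e2 := of_decide_eq_true (hall_ok (τ.s + τ.l) (mem5 hτ.B2 hτ.B6))
  have l1 : hn6.length = N6.length := by rw [e1, List.length_map]
  have l2 : (hall (τ.s + τ.l)).length = (Gx (τ.s + τ.l)).length := by rw [e2, List.length_map]
  obtain ⟨c, j, k, a1, a2, a3, a4, a5, a7, a6⟩ := chkB_spec _ _ _ _ _ _ _ h a (by omega) i (by omega)
  have f1 : hn6[a]'(by omega) = N6[a].map fun c => evZ c (Int.ofNat B1) := by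
    simp only [e1, List.getElem_map]
  have f2 : (hall (τ.s + τ.l))[i]'(by omega) =
      (Gx (τ.s + τ.l))[i].map fun c => evZ c (Int.ofNat B1) := by
    simp only [e2, List.getElem_map]
  rw [f1, f2] at a6
  have g1 : okVec (kx (τ.s + τ.m)) 10 1045214 N6[a] = true := by
    rw [h6]
    exact List.all_eq_true.1 N6_ok _ (List.getElem_mem _)
  have g2 : okVec (kx (τ.s + τ.l)) 10 1045214 (Gx (τ.s + τ.l))[i] = true :=
    List.all_eq_true.1 (Gx_ok _ (mem5 hτ.B2 hτ.B6)) _ (List.getElem_mem _)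
  obtain ⟨r1, r2⟩ := one_K hτ hq hR g1 g2 a1 a2 a3 a4 a7 a6
  exact ⟨r1, fun hi => r2 (a5 (by rw [N6_len] at ha; exact ha) hi)⟩

/-- old times new -/
theorem O_sound {τ : Ty} (hτ : TyOk τ) {ds : List (ℕ × ℕ)} (h : chkO τ ds = true)
    (h6 : τ.s + τ.l = 6) {q : ℝ} (hq : 4 < q) (hR : RepK q) :
    ∀ a (ha : a < (Gs (τ.s + τ.m)).length) i (hi : i < N6.length),
      K q (Gx τ.C.length) (wGx τ.C.length) false (gR τ q (evv (Gs (τ.s + τ.m))[a] q) (evv N6[i] q)) ∧
      (a < wGs (τ.s + τ.m) → K q (Gx τ.C.length) (wGx τ.C.length) true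
        (gR τ q (evv (Gs (τ.s + τ.m))[a] q) (evv N6[i] q))) := by
  intro a ha i hi
  have e1 := of_decide_eq_true hn6_ok
  have e2 := of_decide_eq_true (hold_ok (τ.s + τ.m) (mem5 hτ.A2 hτ.A6))
  have l1 : hn6.length = N6.length := by rw [e1, List.length_map]
  have l2 : (hold (τ.s + τ.m)).length = (Gs (τ.s + τ.m)).length := by rw [e2, List.length_map]
  obtain ⟨c, j, k, a1, a2, a3, a4, a5, a7, a6⟩ := chkB_spec _ _ _ _ _ _ _ h a (by omega) i (by omega)
  have f1 : hn6[i]'(by omega) = N6[i].map fun c => evZ c (Int.ofNat B1) := by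
    simp only [e1, List.getElem_map]
  have f2 : (hold (τ.s + τ.m))[a]'(by omega) =
      (Gs (τ.s + τ.m))[a].map fun c => evZ c (Int.ofNat B1) := by
    simp only [e2, List.getElem_map]
  rw [f1, f2] at a6
  have g1 : okVec (kx (τ.s + τ.l)) 10 1045214 N6[i] = true := by
    rw [h6]
    exact List.all_eq_true.1 N6_ok _ (List.getElem_mem _)
  have g2 : okVec (kx (τ.s + τ.m)) 10 1045214 (Gs (τ.s + τ.m))[a] = true :=
    List.all_eq_true.1 (Gs_ok' _ (mem5 hτ.A2 hτ.A6)) _ (List.getElem_mem _)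
  obtain ⟨r1, r2⟩ := one_K hτ hq hR g2 g1 a1 a2 a3 a4 a7 a6
  exact ⟨r1, fun ha => r2 (a5 ha (by rw [N6_len] at hi; exact hi))⟩

/-! ### membership -/

theorem wfacts : ∀ n ∈ [2, 3, 4, 5, 6], (Nat.beq (wGx n) (wGs n + (Nx n).length) &&
    Nat.ble (wGs n) (Gs n).length && (Nat.beq n 6 || (Nx n).isEmpty)) = true := by decide +kernel

theorem mem_Gx {n : ℕ} {g : List (List ℤ)} (h : g ∈ Gx n) : g ∈ Gs n ∨ g ∈ Nx n := by
  unfold Gx at h
  rw [List.mem_append, List.mem_append] at h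
  rcases h with (h | h) | h
  · exact Or.inl (List.mem_of_mem_take h)
  · exact Or.inr h
  · exact Or.inl (List.mem_of_mem_drop h)

theorem mem_Gx_take {n : ℕ} (h2 : 2 ≤ n) (h6 : n ≤ 6) {g : List (List ℤ)} (h : g ∈ (Gx n).take (wGx n)) :
    g ∈ (Gs n).take (wGs n) ∨ g ∈ Nx n := by
  have hw := wfacts n (mem5 h2 h6)
  simp only [Bool.and_eq_true] at hw
  have w1 := Nat.eq_of_beq_eq_true hw.1.1
  have w2 := Nat.le_of_ble_eq_true hw.1.2
  have l : ((Gs n).take (wGs n) ++ Nx n).length = wGx n := by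
    rw [List.length_append, List.length_take, w1, Nat.min_eq_left w2]
  unfold Gx at h
  rw [List.take_append_of_le_length (by omega), List.take_of_length_le (by omega)] at h
  rwa [List.mem_append] at h

theorem mem_take_Gx {n : ℕ} (h2 : 2 ≤ n) (h6 : n ≤ 6) {g : List (List ℤ)} (h : g ∈ (Gs n).take (wGs n)) :
    g ∈ (Gx n).take (wGx n) := by
  have hw := wfacts n (mem5 h2 h6)
  simp only [Bool.and_eq_true] at hw
  have w1 := Nat.eq_of_beq_eq_true hw.1.1
  have w2 := Nat.le_of_ble_eq_true hw.1.2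
  have l : ((Gs n).take (wGs n) ++ Nx n).length = wGx n := by
    rw [List.length_append, List.length_take, w1, Nat.min_eq_left w2]
  unfold Gx
  rw [List.take_append_of_le_length (by omega), List.take_of_length_le (by omega)]
  exact List.mem_append_left _ h

theorem mem_Gs_Gx {n : ℕ} {g : List (List ℤ)} (h : g ∈ Gs n) : g ∈ Gx n := by
  unfold Gx
  rw [List.mem_append, List.mem_append]
  have := List.take_append_drop (wGs n) (Gs n)
  rw [← this, List.mem_append] at h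
  rcases h with h | h
  · exact Or.inl (Or.inl h)
  · exact Or.inr h

theorem Nx_six {n : ℕ} (h2 : 2 ≤ n) (h6 : n ≤ 6) {g : List (List ℤ)} (h : g ∈ Nx n) : n = 6 ∧ g ∈ N6 := by
  interval_cases n
  · exact absurd h (by simp [Nx])
  · exact absurd h (by simp [Nx])
  · exact absurd h (by simp [Nx])
  · exact absurd h (by simp [Nx])
  · exact ⟨rfl, h⟩

/-- the old cone is contained in the new one -/
theorem K_old {n : ℕ} (h2 : 2 ≤ n) (h6 : n ≤ 6) {q : ℝ} {b : Bool} {x : ℕ → ℝ}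
    (hx : K q (Gs n) (wGs n) b x) : K q (Gx n) (wGx n) b x :=
  K_map (f := fun x => x) Lin.id (fun g hg => K.good g (mem_take_Gx h2 h6 hg))
    (fun g hg => K.bad g (mem_Gs_Gx hg)) hx

/-! ### gluing -/

/-- the cone is closed under a type of gluing -/
theorem glue_Kx {τ : Ty} (hτ : TyOk τ) {q : ℝ} (hq : 4 < q) (hR : RepK q)
    (hA : τ.s + τ.m = 6 → ∃ ds, chkA τ ds = true) (hO : τ.s + τ.l = 6 → ∃ ds, chkO τ ds = true)
    (hold : ∀ b b' x y, K q (Gs (τ.s + τ.m)) (wGs (τ.s + τ.m)) b x →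
      K q (Gs (τ.s + τ.l)) (wGs (τ.s + τ.l)) b' y →
      K q (Gx τ.C.length) (wGx τ.C.length) (b && b') (gR τ q x y)) :
    ∀ b b' x y, K q (Gx (τ.s + τ.m)) (wGx (τ.s + τ.m)) b x →
      K q (Gx (τ.s + τ.l)) (wGx (τ.s + τ.l)) b' y →
      K q (Gx τ.C.length) (wGx τ.C.length) (b && b') (gR τ q x y) := by
  have hfalse : ∀ g ∈ Gx (τ.s + τ.m), ∀ h ∈ Gx (τ.s + τ.l),
      K q (Gx τ.C.length) (wGx τ.C.length) false (gR τ q (evv g q) (evv h q)) := by
    intro g hg h hh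
    rcases mem_Gx hg with hg' | hg'
    · rcases mem_Gx hh with hh' | hh'
      · exact hold false false _ _ (K.bad g hg') (K.bad h hh')
      · obtain ⟨e6, hN⟩ := Nx_six hτ.B2 hτ.B6 hh'
        obtain ⟨ds, hds⟩ := hO e6
        obtain ⟨a, ha, rfl⟩ := List.mem_iff_getElem.1 hg'
        obtain ⟨i, hi, rfl⟩ := List.mem_iff_getElem.1 hN
        exact (O_sound hτ hds e6 hq hR a ha i hi).1
    · obtain ⟨e6, hN⟩ := Nx_six hτ.A2 hτ.A6 hg'
      obtain ⟨ds, hds⟩ := hA e6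
      obtain ⟨a, ha, rfl⟩ := List.mem_iff_getElem.1 hN
      obtain ⟨i, hi, rfl⟩ := List.mem_iff_getElem.1 hh
      exact (A_sound hτ hds e6 hq hR a ha i hi).1
  have htrue : ∀ g ∈ (Gx (τ.s + τ.m)).take (wGx (τ.s + τ.m)),
      ∀ h ∈ (Gx (τ.s + τ.l)).take (wGx (τ.s + τ.l)),
      K q (Gx τ.C.length) (wGx τ.C.length) true (gR τ q (evv g q) (evv h q)) := by
    intro g hg h hh
    rcases mem_Gx_take hτ.A2 hτ.A6 hg with hg' | hg'
    · rcases mem_Gx_take hτ.B2 hτ.B6 hh with hh' | hh'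
      · exact hold true true _ _ (K.good g hg') (K.good h hh')
      · obtain ⟨e6, hN⟩ := Nx_six hτ.B2 hτ.B6 hh'
        obtain ⟨ds, hds⟩ := hO e6
        obtain ⟨a, ha, rfl⟩ := List.mem_take_iff_getElem.1 hg'
        obtain ⟨i, hi, rfl⟩ := List.mem_iff_getElem.1 hN
        exact (O_sound hτ hds e6 hq hR a (by omega) i hi).2 (by omega)
    · obtain ⟨e6, hN⟩ := Nx_six hτ.A2 hτ.A6 hg'
      obtain ⟨ds, hds⟩ := hA e6
      obtain ⟨a, ha, rfl⟩ := List.mem_iff_getElem.1 hN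
      obtain ⟨i, hi, rfl⟩ := List.mem_take_iff_getElem.1 hh
      exact (A_sound hτ hds e6 hq hR a ha i (by omega)).2 (by omega)
  intro b b' X Y hX hY
  have hX0 := K_forget hX
  have hA1 : ∀ h ∈ Gx (τ.s + τ.l),
      K q (Gx τ.C.length) (wGx τ.C.length) false (gR τ q X (evv h q)) := by
    intro h hh
    exact K_map (lin1 τ q (evv h q)) (fun g hg => by simp at hg)
      (fun g hg => hfalse g hg h hh) hX0
  cases hb : b with
  | false =>
    rw [Bool.false_and]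
    exact K_map (lin2 τ q X) (fun g hg => by simp at hg)
      (fun h hh => hA1 h hh) (K_forget hY)
  | true =>
    rw [Bool.true_and]
    rw [hb] at hX
    have hA2 : ∀ h ∈ (Gx (τ.s + τ.l)).take (wGx (τ.s + τ.l)),
        K q (Gx τ.C.length) (wGx τ.C.length) true (gR τ q X (evv h q)) := by
      intro h hh
      exact K_map (lin1 τ q (evv h q)) (fun g hg => htrue g hg h hh)
        (fun g hg => hfalse g hg h (List.mem_of_mem_take hh)) hX
    exact K_map (lin2 τ q X) hA2 hA1 hY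

end Pool.Agent.H60.BM
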