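import Pool.Agent.H60.BM.Stg
import Pool.Agent.H60.BM.PP0
import Pool.Agent.H60.BM.PP1
import Pool.Agent.H60.BM.PP2
import Pool.Agent.H60.BM.PP3
import Pool.Agent.H60.BM.PP4
import Pool.Agent.H60.BM.PP5
import Pool.Agent.H60.BM.PP6
import Pool.Agent.H60.BM.PP7
import Pool.Agent.H60.BM.PP8
import Pool.Agent.H60.BM.PP9
import Pool.Agent.H60.BM.PP10
import Pool.Agent.H60.BM.PP11

/-! The Birkhoff-Lewis inequality for graphs which are glued from polygons with perimeters at most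
six, above `29 / 7`. -/

set_option autoImplicit false
set_option maxRecDepth 1000000

namespace Pool.Agent.H60.BM

open Finset Polynomial
open Pool.Agent.N467.BL
open Pool.Agent.H60.BL
open Pool.Agent.TH389.BL (ev evv toP K)

def partsA : List (Ty × List (ℕ × ℕ)) := [
  (⟨3, 3, 3, false, false⟩, pA3_3_3_00),
  (⟨4, 2, 2, true, true⟩, pA4_2_2_11),
  (⟨3, 3, 2, false, false⟩, pA3_3_2_00),
  (⟨4, 2, 2, true, false⟩, pA4_2_2_10),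
  (⟨4, 2, 2, false, true⟩, pA4_2_2_01),
  (⟨4, 2, 1, true, true⟩, pA4_2_1_11),
  (⟨4, 2, 2, false, false⟩, pA4_2_2_00),
  (⟨3, 3, 2, true, false⟩, pA3_3_2_10),
  (⟨3, 3, 2, false, true⟩, pA3_3_2_01),
  (⟨5, 1, 1, true, true⟩, pA5_1_1_11),
  (⟨5, 1, 1, true, false⟩, pA5_1_1_10),
  (⟨5, 1, 1, false, true⟩, pA5_1_1_01),
  (⟨5, 1, 1, false, false⟩, pA5_1_1_00),
  (⟨6, 0, 0, true, true⟩, pA6_0_0_11),
  (⟨4, 2, 1, true, false⟩, pA4_2_1_10),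
  (⟨4, 2, 1, false, true⟩, pA4_2_1_01),
  (⟨4, 2, 1, false, false⟩, pA4_2_1_00),
  (⟨5, 1, 0, true, true⟩, pA5_1_0_11),
  (⟨5, 1, 0, true, false⟩, pA5_1_0_10),
  (⟨5, 1, 0, false, true⟩, pA5_1_0_01),
  (⟨2, 4, 2, false, false⟩, pA2_4_2_00),
  (⟨3, 3, 1, true, true⟩, pA3_3_1_11),
  (⟨3, 3, 1, true, false⟩, pA3_3_1_10),
  (⟨3, 3, 1, false, true⟩, pA3_3_1_01),
  (⟨3, 3, 1, false, false⟩, pA3_3_1_00),
  (⟨4, 2, 0, true, true⟩, pA4_2_0_11),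
  (⟨4, 2, 0, true, false⟩, pA4_2_0_10),
  (⟨1, 5, 1, false, false⟩, pA1_5_1_00),
  (⟨4, 2, 0, false, true⟩, pA4_2_0_01),
  (⟨4, 2, 0, false, false⟩, pA4_2_0_00),
  (⟨2, 4, 0, true, true⟩, pA2_4_0_11),
  (⟨2, 4, 1, true, false⟩, pA2_4_1_10),
  (⟨2, 4, 1, false, true⟩, pA2_4_1_01),
  (⟨2, 4, 0, true, false⟩, pA2_4_0_10),
  (⟨2, 4, 0, false, true⟩, pA2_4_0_01),
  (⟨2, 4, 1, false, false⟩, pA2_4_1_00),
  (⟨3, 3, 0, true, true⟩, pA3_3_0_11),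
  (⟨2, 4, 0, false, false⟩, pA2_4_0_00),
  (⟨3, 3, 0, true, false⟩, pA3_3_0_10),
  (⟨3, 3, 0, false, true⟩, pA3_3_0_01),
  (⟨3, 3, 0, false, false⟩, pA3_3_0_00)]

theorem partsA_ok : ∀ e ∈ partsA, chkA e.1 e.2 = true := by
  simp only [partsA, List.forall_mem_cons]
  exact ⟨(Bool.and_eq_true_iff.1 ok3_3_3_00).1, (Bool.and_eq_true_iff.1 ok4_2_2_11).1, ok3_3_2_00, (Bool.and_eq_true_iff.1 ok4_2_2_10).1, (Bool.and_eq_true_iff.1 ok4_2_2_01).1, ok4_2_1_11, (Bool.and_eq_true_iff.1 ok4_2_2_00).1, ok3_3_2_10, ok3_3_2_01, (Bool.and_eq_true_iff.1 ok5_1_1_11).1, (Bool.and_eq_true_iff.1 ok5_1_1_10).1, (Bool.and_eq_true_iff.1 ok5_1_1_01).1, (Bool.and_eq_true_iff.1 ok5_1_1_00).1, (Bool.and_eq_true_iff.1 ok6_0_0_11).1, ok4_2_1_10, ok4_2_1_01, ok4_2_1_00, ok5_1_0_11, ok5_1_0_10, ok5_1_0_01, ok2_4_2_00, ok3_3_1_11, ok3_3_1_10, ok3_3_1_01, ok3_3_1_00,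 ok4_2_0_11, ok4_2_0_10, ok1_5_1_00, ok4_2_0_01, ok4_2_0_00, ok2_4_0_11, ok2_4_1_10, ok2_4_1_01, ok2_4_0_10, ok2_4_0_01, ok2_4_1_00, ok3_3_0_11, ok2_4_0_00, ok3_3_0_10, ok3_3_0_01, ok3_3_0_00, by simp⟩

def partsB : List (Ty × List (ℕ × ℕ)) := [
  (⟨3, 3, 3, false, false⟩, pB3_3_3_00),
  (⟨3, 2, 3, false, false⟩, pB3_2_3_00),
  (⟨4, 2, 2, true, true⟩, pB4_2_2_11),
  (⟨4, 2, 2, true, false⟩, pB4_2_2_10),
  (⟨3, 2, 3, true, false⟩, pB3_2_3_10),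
  (⟨4, 1, 2, true, true⟩, pB4_1_2_11),
  (⟨4, 2, 2, false, true⟩, pB4_2_2_01),
  (⟨3, 2, 3, false, true⟩, pB3_2_3_01),
  (⟨4, 2, 2, false, false⟩, pB4_2_2_00),
  (⟨1, 1, 5, false, false⟩, pB1_1_5_00),
  (⟨5, 1, 1, true, true⟩, pB5_1_1_11),
  (⟨4, 1, 2, true, false⟩, pB4_1_2_10),
  (⟨4, 1, 2, false, true⟩, pB4_1_2_01),
  (⟨2, 2, 4, false, false⟩, pB2_2_4_00),
  (⟨5, 1, 1, true, false⟩, pB5_1_1_10),
  (⟨5, 1, 1, false, true⟩, pB5_1_1_01),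
  (⟨5, 1, 1, false, false⟩, pB5_1_1_00),
  (⟨6, 0, 0, true, true⟩, pB6_0_0_11),
  (⟨4, 1, 2, false, false⟩, pB4_1_2_00),
  (⟨5, 0, 1, true, true⟩, pB5_0_1_11),
  (⟨5, 0, 1, true, false⟩, pB5_0_1_10),
  (⟨5, 0, 1, false, true⟩, pB5_0_1_01),
  (⟨3, 1, 3, true, true⟩, pB3_1_3_11),
  (⟨4, 0, 2, true, false⟩, pB4_0_2_10),
  (⟨3, 1, 3, true, false⟩, pB3_1_3_10),
  (⟨3, 1, 3, false, true⟩, pB3_1_3_01),
  (⟨3, 1, 3, false, false⟩, pB3_1_3_00),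
  (⟨4, 0, 2, true, true⟩, pB4_0_2_11),
  (⟨4, 0, 2, false, true⟩, pB4_0_2_01),
  (⟨4, 0, 2, false, false⟩, pB4_0_2_00),
  (⟨2, 0, 4, true, true⟩, pB2_0_4_11),
  (⟨2, 1, 4, true, false⟩, pB2_1_4_10),
  (⟨2, 1, 4, false, true⟩, pB2_1_4_01),
  (⟨2, 0, 4, true, false⟩, pB2_0_4_10),
  (⟨2, 0, 4, false, true⟩, pB2_0_4_01),
  (⟨2, 1, 4, false, false⟩, pB2_1_4_00),
  (⟨3, 0, 3, true, true⟩, pB3_0_3_11),
  (⟨2, 0, 4, false, false⟩, pB2_0_4_00),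
  (⟨3, 0, 3, true, false⟩, pB3_0_3_10),
  (⟨3, 0, 3, false, true⟩, pB3_0_3_01),
  (⟨3, 0, 3, false, false⟩, pB3_0_3_00)]

theorem partsB_ok : ∀ e ∈ partsB, chkO e.1 e.2 = true := by
  simp only [partsB, List.forall_mem_cons]
  exact ⟨(Bool.and_eq_true_iff.1 ok3_3_3_00).2, ok3_2_3_00, (Bool.and_eq_true_iff.1 ok4_2_2_11).2, (Bool.and_eq_true_iff.1 ok4_2_2_10).2, ok3_2_3_10, ok4_1_2_11, (Bool.and_eq_true_iff.1 ok4_2_2_01).2, ok3_2_3_01, (Bool.and_eq_true_iff.1 ok4_2_2_00).2, ok1_1_5_00, (Bool.and_eq_true_iff.1 ok5_1_1_11).2, ok4_1_2_10, ok4_1_2_01, ok2_2_4_00, (Bool.and_eq_true_iff.1 ok5_1_1_10).2, (Bool.and_eq_true_iff.1 ok5_1_1_01).2, (Bool.and_eq_true_iff.1 ok5_1_1_00).2, (Bool.and_eq_true_iff.1 ok6_0_0_11).2, ok4_1_2_00, ok5_0_1_11, ok5_0_1_10, ok5_0_1_01, ok3_1_3_11, ok4_0_2_10, ok3_1_3_10, ok3_1_3_01, ok3_1_3_00, ok4_0_2_11,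 ok4_0_2_01, ok4_0_2_00, ok2_0_4_11, ok2_1_4_10, ok2_1_4_01, ok2_0_4_10, ok2_0_4_01, ok2_1_4_00, ok3_0_3_11, ok2_0_4_00, ok3_0_3_10, ok3_0_3_01, ok3_0_3_00, by simp⟩

theorem tysA : ((tys 6).all fun τ => !Nat.beq (τ.s + τ.m) 6 || partsA.any fun e => eqTy e.1 τ) = true := by
  decide +kernel

theorem tysB : ((tys 6).all fun τ => !Nat.beq (τ.s + τ.l) 6 || partsB.any fun e => eqTy e.1 τ) = true := by
  decide +kernel

theorem exA {τ : Ty} (h : τ ∈ tys 6) (h6 : τ.s + τ.m = 6) : ∃ ds, chkA τ ds = true := by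
  have h1 := List.all_eq_true.1 tysA τ h
  rw [h6] at h1
  have h1' : (partsA.any fun e => eqTy e.1 τ) = true := by simpa using h1
  obtain ⟨e, he, h2⟩ := List.any_eq_true.1 h1'
  exact ⟨e.2, by rw [← eqTy_eq h2]; exact partsA_ok e he⟩

theorem exB {τ : Ty} (h : τ ∈ tys 6) (h6 : τ.s + τ.l = 6) : ∃ ds, chkO τ ds = true := by
  have h1 := List.all_eq_true.1 tysB τ h
  rw [h6] at h1
  have h1' : (partsB.any fun e => eqTy e.1 τ) = true := by simpa using h1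
  obtain ⟨e, he, h2⟩ := List.any_eq_true.1 h1'
  exact ⟨e.2, by rw [← eqTy_eq h2]; exact partsB_ok e he⟩

theorem hglueX {q : ℝ} (hq1 : 29 / 7 < q) (hq2 : q < 32 / 7) : ∀ τ ∈ tys 6, ∀ b b' x y,
    K q (Gx (τ.s + τ.m)) (wGx (τ.s + τ.m)) b x → K q (Gx (τ.s + τ.l)) (wGx (τ.s + τ.l)) b' y →
      K q (Gx τ.C.length) (wGx τ.C.length) (b && b') (gR τ q x y) := by
  intro τ h
  have hτ := tyOk h
  have hq : 4 < q := by linarith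
  refine glue_Kx hτ hq (repK hq1 hq2) (exA h) (exB h) ?_
  intro b b' x y hx hy
  obtain ⟨ds, h1⟩ := tys_chk h
  exact stageX hτ.C2 hτ.C6 hq1 hq2 (glue_L h1 hτ.A2 hτ.A6 hτ.B2 hτ.B6 hτ.C2 hτ.C6 hq b b' x y hx hy)

/-- **The Birkhoff-Lewis inequality** for the graphs with a disc decomposition of width six, for
`29 / 7 < q < 32 / 7`. -/
theorem disc6_posX {V : Type} [Finite V] {G : SimpleGraph V} {r : List V} (h : Disc 6 G Set.univ r)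
    (p : ℝ[X]) (hp : ∀ k : ℕ, p.eval (k : ℝ) = (Nat.card (G.Coloring (Fin k)) : ℝ))
    {q : ℝ} (hq1 : 29 / 7 < q) (hq2 : q < 32 / 7) : 0 < p.eval q := by
  have hq : 4 < q := by linarith
  refine disc_pos (Gs := Gx) (ws := wGx) hok (fun n h2 h6 => K_old h2 h6 (face_K h2 h6 hq)) ?_ ?_
    (hglueX hq1 hq2) (fun n h2 h6 x hx => close_posX h2 h6 hq1 hq2 x hx) h p hp
  · intro n h2 h6 b x hx
    exact rot_Kx h2 h6 hx
  · intro n h2 h6 b x hx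
    exact mir_Kx h2 h6 hx

/-- the same for all `q` between `29 / 7` and `5` -/
theorem disc6_pos' {V : Type} [Finite V] {G : SimpleGraph V} {r : List V} (h : Disc 6 G Set.univ r)
    (p : ℝ[X]) (hp : ∀ k : ℕ, p.eval (k : ℝ) = (Nat.card (G.Coloring (Fin k)) : ℝ))
    {q : ℝ} (hq1 : 29 / 7 < q) (hq2 : q < 5) : 0 < p.eval q := by
  by_cases h1 : q < 32 / 7
  · exact disc6_posX h p hp hq1 h1
  · exact disc6_pos h p hp (by push Not at h1; linarith) hq2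

end Pool.Agent.H60.BM
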