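import Pool.Agent.H60.BM.Dat
import Pool.Agent.H60.BM.RepV

/-! The check of the certificates of the products. -/

set_option autoImplicit false
set_option maxRecDepth 1000000

namespace Pool.Agent.H60.BM

open Pool.Agent.N467.BL
open Pool.Agent.H60.BL

/-- number of coordinates -/
def kx : ℕ → ℕ
  | 2 => 1 | 3 => 1 | 4 => 3 | 5 => 6 | _ => 15

/-- the parameters of the certificates -/
def Zx (n : ℕ) : Q := ⟨TT, B2, kx n, dlx n, nlx n, ngx n, wGx n, Gx n, gzs n⟩

/-- check of a list of vectors -/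
def okCh (n : ℕ) : ℕ → List (ℕ × ℕ × ℕ) → List (List (ℕ × ℕ × ℕ × ℕ)) → Bool
  | _, [], [] => true
  | i, v :: vs, c :: cs => okRp (Zx n) 29 7 32 7 (Nat.blt i (wR n)) (vecW (kx n) v) c &&
      okCh n (i + 1) vs cs
  | _, _, _ => false

/-- the `j`-th product -/
def vecR (n j : ℕ) : List (List ℤ) :=
  vecW (kx n) (((rvs n).getD (Nat.div j 32) []).getD (Nat.mod j 32) (0, 0, 0))

end Pool.Agent.H60.BM
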