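import Pool.Agent.H60.BM.Pair

/-! Check of the values of the products. -/

set_option autoImplicit false
set_option maxRecDepth 1000000

namespace Pool.Agent.H60.BM

open Pool.Agent.N467.BL
open Pool.Agent.H60.BL

theorem uok2_0 : okU 2 rv2_0 ru2_0 = true := by decide +kernel

theorem uok2_1 : okU 2 rv2_1 ru2_1 = true := by decide +kernel

theorem uok2_2 : okU 2 rv2_2 ru2_2 = true := by decide +kernel

theorem uok2_3 : okU 2 rv2_3 ru2_3 = true := by decide +kernel

theorem uok2_4 : okU 2 rv2_4 ru2_4 = true := by decide +kernel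

theorem uok2_5 : okU 2 rv2_5 ru2_5 = true := by decide +kernel

theorem uok2_6 : okU 2 rv2_6 ru2_6 = true := by decide +kernel

theorem uok2_7 : okU 2 rv2_7 ru2_7 = true := by decide +kernel

theorem uok2_8 : okU 2 rv2_8 ru2_8 = true := by decide +kernel

theorem uok2_9 : okU 2 rv2_9 ru2_9 = true := by decide +kernel

theorem uok2_10 : okU 2 rv2_10 ru2_10 = true := by decide +kernel

theorem uok2_11 : okU 2 rv2_11 ru2_11 = true := by decide +kernel

theorem uok3_0 : okU 3 rv3_0 ru3_0 = true := by decide +kernel

theorem uok3_1 : okU 3 rv3_1 ru3_1 = true := by decide +kernel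

theorem uok3_2 : okU 3 rv3_2 ru3_2 = true := by decide +kernel

theorem uok3_3 : okU 3 rv3_3 ru3_3 = true := by decide +kernel

theorem uok3_4 : okU 3 rv3_4 ru3_4 = true := by decide +kernel

theorem uok3_5 : okU 3 rv3_5 ru3_5 = true := by decide +kernel

theorem uok3_6 : okU 3 rv3_6 ru3_6 = true := by decide +kernel

theorem uok3_7 : okU 3 rv3_7 ru3_7 = true := by decide +kernel

theorem uok3_8 : okU 3 rv3_8 ru3_8 = true := by decide +kernel

theorem uok3_9 : okU 3 rv3_9 ru3_9 = true := by decide +kernel

theorem uok3_10 : okU 3 rv3_10 ru3_10 = true := by decide +kernel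

theorem uok4_0 : okU 4 rv4_0 ru4_0 = true := by decide +kernel

theorem uok4_1 : okU 4 rv4_1 ru4_1 = true := by decide +kernel

theorem uok4_2 : okU 4 rv4_2 ru4_2 = true := by decide +kernel

theorem uok4_3 : okU 4 rv4_3 ru4_3 = true := by decide +kernel

theorem uok4_4 : okU 4 rv4_4 ru4_4 = true := by decide +kernel

theorem uok4_5 : okU 4 rv4_5 ru4_5 = true := by decide +kernel

theorem uok4_6 : okU 4 rv4_6 ru4_6 = true := by decide +kernel

theorem uok4_7 : okU 4 rv4_7 ru4_7 = true := by decide +kernel

theorem uok4_8 : okU 4 rv4_8 ru4_8 = true := by decide +kernel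

theorem uok4_9 : okU 4 rv4_9 ru4_9 = true := by decide +kernel

theorem uok4_10 : okU 4 rv4_10 ru4_10 = true := by decide +kernel

theorem uok4_11 : okU 4 rv4_11 ru4_11 = true := by decide +kernel

theorem uok4_12 : okU 4 rv4_12 ru4_12 = true := by decide +kernel

theorem uok4_13 : okU 4 rv4_13 ru4_13 = true := by decide +kernel

theorem uok4_14 : okU 4 rv4_14 ru4_14 = true := by decide +kernel

theorem uok4_15 : okU 4 rv4_15 ru4_15 = true := by decide +kernel

theorem uok4_16 : okU 4 rv4_16 ru4_16 = true := by decide +kernel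

theorem uok4_17 : okU 4 rv4_17 ru4_17 = true := by decide +kernel

theorem uok4_18 : okU 4 rv4_18 ru4_18 = true := by decide +kernel

theorem uok4_19 : okU 4 rv4_19 ru4_19 = true := by decide +kernel

theorem uok4_20 : okU 4 rv4_20 ru4_20 = true := by decide +kernel

theorem uok4_21 : okU 4 rv4_21 ru4_21 = true := by decide +kernel

theorem uok4_22 : okU 4 rv4_22 ru4_22 = true := by decide +kernel

theorem uok4_23 : okU 4 rv4_23 ru4_23 = true := by decide +kernel

theorem uok4_24 : okU 4 rv4_24 ru4_24 = true := by decide +kernel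

theorem uok4_25 : okU 4 rv4_25 ru4_25 = true := by decide +kernel

theorem uok4_26 : okU 4 rv4_26 ru4_26 = true := by decide +kernel

theorem uok4_27 : okU 4 rv4_27 ru4_27 = true := by decide +kernel

theorem uok4_28 : okU 4 rv4_28 ru4_28 = true := by decide +kernel

theorem uok4_29 : okU 4 rv4_29 ru4_29 = true := by decide +kernel

theorem uok4_30 : okU 4 rv4_30 ru4_30 = true := by decide +kernel

theorem uok4_31 : okU 4 rv4_31 ru4_31 = true := by decide +kernel

theorem uok4_32 : okU 4 rv4_32 ru4_32 = true := by decide +kernel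

theorem uok4_33 : okU 4 rv4_33 ru4_33 = true := by decide +kernel

theorem uok4_34 : okU 4 rv4_34 ru4_34 = true := by decide +kernel

theorem uok5_0 : okU 5 rv5_0 ru5_0 = true := by decide +kernel

theorem uok5_1 : okU 5 rv5_1 ru5_1 = true := by decide +kernel

theorem uok5_2 : okU 5 rv5_2 ru5_2 = true := by decide +kernel

theorem uok5_3 : okU 5 rv5_3 ru5_3 = true := by decide +kernel

theorem uok5_4 : okU 5 rv5_4 ru5_4 = true := by decide +kernel

theorem uok5_5 : okU 5 rv5_5 ru5_5 = true := by decide +kernel

theorem uok5_6 : okU 5 rv5_6 ru5_6 = true := by decide +kernel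

theorem uok5_7 : okU 5 rv5_7 ru5_7 = true := by decide +kernel

theorem uok5_8 : okU 5 rv5_8 ru5_8 = true := by decide +kernel

theorem uok5_9 : okU 5 rv5_9 ru5_9 = true := by decide +kernel

theorem uok5_10 : okU 5 rv5_10 ru5_10 = true := by decide +kernel

theorem uok5_11 : okU 5 rv5_11 ru5_11 = true := by decide +kernel

theorem uok5_12 : okU 5 rv5_12 ru5_12 = true := by decide +kernel

theorem uok5_13 : okU 5 rv5_13 ru5_13 = true := by decide +kernel

theorem uok5_14 : okU 5 rv5_14 ru5_14 = true := by decide +kernel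

theorem uok5_15 : okU 5 rv5_15 ru5_15 = true := by decide +kernel

theorem uok5_16 : okU 5 rv5_16 ru5_16 = true := by decide +kernel

theorem uok5_17 : okU 5 rv5_17 ru5_17 = true := by decide +kernel

theorem uok5_18 : okU 5 rv5_18 ru5_18 = true := by decide +kernel

theorem uok5_19 : okU 5 rv5_19 ru5_19 = true := by decide +kernel

theorem uok5_20 : okU 5 rv5_20 ru5_20 = true := by decide +kernel

theorem uok5_21 : okU 5 rv5_21 ru5_21 = true := by decide +kernel

theorem uok5_22 : okU 5 rv5_22 ru5_22 = true := by decide +kernel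

theorem uok5_23 : okU 5 rv5_23 ru5_23 = true := by decide +kernel

theorem uok5_24 : okU 5 rv5_24 ru5_24 = true := by decide +kernel

theorem uok5_25 : okU 5 rv5_25 ru5_25 = true := by decide +kernel

theorem uok5_26 : okU 5 rv5_26 ru5_26 = true := by decide +kernel

theorem uok5_27 : okU 5 rv5_27 ru5_27 = true := by decide +kernel

theorem uok5_28 : okU 5 rv5_28 ru5_28 = true := by decide +kernel

theorem uok5_29 : okU 5 rv5_29 ru5_29 = true := by decide +kernel

theorem uok5_30 : okU 5 rv5_30 ru5_30 = true := by decide +kernel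

theorem uok5_31 : okU 5 rv5_31 ru5_31 = true := by decide +kernel

theorem uok5_32 : okU 5 rv5_32 ru5_32 = true := by decide +kernel

theorem uok5_33 : okU 5 rv5_33 ru5_33 = true := by decide +kernel

theorem uok5_34 : okU 5 rv5_34 ru5_34 = true := by decide +kernel

theorem uok5_35 : okU 5 rv5_35 ru5_35 = true := by decide +kernel

theorem uok6_0 : okU 6 rv6_0 ru6_0 = true := by decide +kernel

theorem uok6_1 : okU 6 rv6_1 ru6_1 = true := by decide +kernel

theorem uok6_2 : okU 6 rv6_2 ru6_2 = true := by decide +kernel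

theorem uok6_3 : okU 6 rv6_3 ru6_3 = true := by decide +kernel

theorem uok6_4 : okU 6 rv6_4 ru6_4 = true := by decide +kernel

theorem uok6_5 : okU 6 rv6_5 ru6_5 = true := by decide +kernel

theorem uok6_6 : okU 6 rv6_6 ru6_6 = true := by decide +kernel

theorem uok6_7 : okU 6 rv6_7 ru6_7 = true := by decide +kernel

theorem uok6_8 : okU 6 rv6_8 ru6_8 = true := by decide +kernel

theorem uok6_9 : okU 6 rv6_9 ru6_9 = true := by decide +kernel

theorem uok6_10 : okU 6 rv6_10 ru6_10 = true := by decide +kernel

theorem uok6_11 : okU 6 rv6_11 ru6_11 = true := by decide +kernel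

theorem uok6_12 : okU 6 rv6_12 ru6_12 = true := by decide +kernel

theorem uok6_13 : okU 6 rv6_13 ru6_13 = true := by decide +kernel

theorem uok6_14 : okU 6 rv6_14 ru6_14 = true := by decide +kernel

theorem uok6_15 : okU 6 rv6_15 ru6_15 = true := by decide +kernel

theorem uok6_16 : okU 6 rv6_16 ru6_16 = true := by decide +kernel

theorem uok6_17 : okU 6 rv6_17 ru6_17 = true := by decide +kernel

theorem uok6_18 : okU 6 rv6_18 ru6_18 = true := by decide +kernel

theorem uok6_19 : okU 6 rv6_19 ru6_19 = true := by decide +kernel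

theorem uok6_20 : okU 6 rv6_20 ru6_20 = true := by decide +kernel

theorem uok6_21 : okU 6 rv6_21 ru6_21 = true := by decide +kernel

theorem uok6_22 : okU 6 rv6_22 ru6_22 = true := by decide +kernel

theorem uok6_23 : okU 6 rv6_23 ru6_23 = true := by decide +kernel

theorem uok6_24 : okU 6 rv6_24 ru6_24 = true := by decide +kernel

theorem uok6_25 : okU 6 rv6_25 ru6_25 = true := by decide +kernel

theorem uok6_26 : okU 6 rv6_26 ru6_26 = true := by decide +kernel

theorem uok6_27 : okU 6 rv6_27 ru6_27 = true := by decide +kernel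

theorem uok6_28 : okU 6 rv6_28 ru6_28 = true := by decide +kernel

theorem uok6_29 : okU 6 rv6_29 ru6_29 = true := by decide +kernel

theorem uok6_30 : okU 6 rv6_30 ru6_30 = true := by decide +kernel

theorem uok6_31 : okU 6 rv6_31 ru6_31 = true := by decide +kernel

theorem uok6_32 : okU 6 rv6_32 ru6_32 = true := by decide +kernel

theorem uok6_33 : okU 6 rv6_33 ru6_33 = true := by decide +kernel

theorem uok6_34 : okU 6 rv6_34 ru6_34 = true := by decide +kernel

theorem uok6_35 : okU 6 rv6_35 ru6_35 = true := by decide +kernel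

theorem uok6_36 : okU 6 rv6_36 ru6_36 = true := by decide +kernel

theorem uok6_37 : okU 6 rv6_37 ru6_37 = true := by decide +kernel

theorem uok6_38 : okU 6 rv6_38 ru6_38 = true := by decide +kernel

theorem uok6_39 : okU 6 rv6_39 ru6_39 = true := by decide +kernel

theorem uok6_40 : okU 6 rv6_40 ru6_40 = true := by decide +kernel

theorem uok6_41 : okU 6 rv6_41 ru6_41 = true := by decide +kernel

theorem uok6_42 : okU 6 rv6_42 ru6_42 = true := by decide +kernel

theorem uok6_43 : okU 6 rv6_43 ru6_43 = true := by decide +kernel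

theorem uok6_44 : okU 6 rv6_44 ru6_44 = true := by decide +kernel

theorem uok6_45 : okU 6 rv6_45 ru6_45 = true := by decide +kernel

theorem uok6_46 : okU 6 rv6_46 ru6_46 = true := by decide +kernel

theorem uok6_47 : okU 6 rv6_47 ru6_47 = true := by decide +kernel

theorem uok6_48 : okU 6 rv6_48 ru6_48 = true := by decide +kernel

theorem uok6_49 : okU 6 rv6_49 ru6_49 = true := by decide +kernel

end Pool.Agent.H60.BM
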