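import Pool.Agent.H60.BM.Blk
import Pool.Agent.H60.BM.RepW
import Pool.Agent.H60.BM.RepC0
import Pool.Agent.H60.BM.RepC1
import Pool.Agent.H60.BM.RepC2
import Pool.Agent.H60.BM.RepC3
import Pool.Agent.H60.BM.RepC4
import Pool.Agent.H60.BM.RepC5
import Pool.Agent.H60.BM.RepC6
import Pool.Agent.H60.BM.RepC7
import Pool.Agent.H60.BM.RepC8
import Pool.Agent.H60.BM.RepC9
import Pool.Agent.H60.BM.RepC10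
import Pool.Agent.H60.BM.RepC11
import Pool.Agent.H60.BM.RepC12
import Pool.Agent.H60.BM.RepC13
import Pool.Agent.H60.BM.RepC14
import Pool.Agent.H60.BM.RepC15
import Pool.Agent.H60.BM.RepC16
import Pool.Agent.H60.BM.RepC17
import Pool.Agent.H60.BM.RepC18
import Pool.Agent.H60.BM.RepC19
import Pool.Agent.H60.BM.RepC20
import Pool.Agent.H60.BM.RepC21
import Pool.Agent.H60.BM.RepC22
import Pool.Agent.H60.BM.RepC23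
import Pool.Agent.H60.BM.RepC24
import Pool.Agent.H60.BM.RepC25
import Pool.Agent.H60.BM.RepC26
import Pool.Agent.H60.BM.RepC27
import Pool.Agent.H60.BM.RepC28
import Pool.Agent.H60.BM.RepC29
import Pool.Agent.H60.BM.RepC30
import Pool.Agent.H60.BM.RepC31
import Pool.Agent.H60.BM.RepC32
import Pool.Agent.H60.BM.RepC33
import Pool.Agent.H60.BM.RepC34
import Pool.Agent.H60.BM.RepC35
import Pool.Agent.H60.BM.RepC36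
import Pool.Agent.H60.BM.RepC37
import Pool.Agent.H60.BM.RepC38
import Pool.Agent.H60.BM.RepC39
import Pool.Agent.H60.BM.RepC40

/-! All products belong to the cone. -/

set_option autoImplicit false
set_option maxRecDepth 1000000

namespace Pool.Agent.H60.BM

open Pool.Agent.N467.BL
open Pool.Agent.H60.BL
open Pool.Agent.N467.BL.ChkA (okVec_spec)
open Pool.Agent.TH389.BL (ev evv toP K)

theorem Zx_ok {n : ℕ} (h2 : 2 ≤ n) (h6 : n ≤ 6) : (Zx n).Ok := by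
  refine ⟨fun g hg => ?_, of_decide_eq_true (gzs_ok n (mem5 h2 h6))⟩
  have h := okVec_spec (List.all_eq_true.1 (Gx_ok' n (mem5 h2 h6)) g hg)
  exact ⟨h.1, fun i => (h.2 i).2⟩

theorem okCh_spec (n : ℕ) : ∀ (vs : List (ℕ × ℕ × ℕ)) (i : ℕ) (cs : List (List (ℕ × ℕ × ℕ × ℕ))),
    okCh n i vs cs = true → ∀ t (ht : t < vs.length),
      ∃ c, okRp (Zx n) 29 7 32 7 (Nat.blt (i + t) (wR n)) (vecW (kx n) vs[t]) c = true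
  | [], _, _ => fun _ t ht => by simp at ht
  | _ :: _, _, [] => fun h => by simp [okCh] at h
  | v :: vs, i, c :: cs => fun h t ht => by
    simp only [okCh, Bool.and_eq_true] at h
    cases t with
    | zero => exact ⟨c, by simpa using h.1⟩
    | succ t =>
      obtain ⟨c', hc'⟩ := okCh_spec n vs (i + 1) cs h.2 t (by simpa using ht)
      refine ⟨c', ?_⟩
      rw [show i + (t + 1) = i + 1 + t by ring]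
      simpa using hc'

theorem okU_spec (n : ℕ) : ∀ (vs : List (ℕ × ℕ × ℕ)) (us : List (List ℤ)), okU n vs us = true →
    ∀ t (ht : t < vs.length), (vecW (kx n) vs[t]).map (fun p => evZ p (Int.ofNat B1)) = us.getD t []
  | [], _ => fun _ t ht => by simp at ht
  | _ :: _, [] => fun h => by simp [okU] at h
  | v :: vs, u :: us => fun h t ht => by
    simp only [okU, Bool.and_eq_true, decide_eq_true_eq] at h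
    cases t with
    | zero => simpa using h.1
    | succ t => simpa using okU_spec n vs us h.2 t (by simpa using ht)

/-- all chunks are checked -/
def ChOK (n : ℕ) : Prop := ∀ c, c < (rvs n).length →
  (∃ cs, okCh n (32 * c) ((rvs n).getD c []) cs = true) ∧
    okU n ((rvs n).getD c []) ((rus n).getD c []) = true

theorem ch2 : ChOK 2 := by
  intro c hc
  have hl : (rvs 2).length = 12 := by decide +kernel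
  rw [hl] at hc
  interval_cases c
  · exact ⟨⟨rc2_0, rok2_0⟩, uok2_0⟩
  · exact ⟨⟨rc2_1, rok2_1⟩, uok2_1⟩
  · exact ⟨⟨rc2_2, rok2_2⟩, uok2_2⟩
  · exact ⟨⟨rc2_3, rok2_3⟩, uok2_3⟩
  · exact ⟨⟨rc2_4, rok2_4⟩, uok2_4⟩
  · exact ⟨⟨rc2_5, rok2_5⟩, uok2_5⟩
  · exact ⟨⟨rc2_6, rok2_6⟩, uok2_6⟩
  · exact ⟨⟨rc2_7, rok2_7⟩, uok2_7⟩
  · exact ⟨⟨rc2_8, rok2_8⟩, uok2_8⟩
  · exact ⟨⟨rc2_9, rok2_9⟩, uok2_9⟩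
  · exact ⟨⟨rc2_10, rok2_10⟩, uok2_10⟩
  · exact ⟨⟨rc2_11, rok2_11⟩, uok2_11⟩

theorem ch3 : ChOK 3 := by
  intro c hc
  have hl : (rvs 3).length = 11 := by decide +kernel
  rw [hl] at hc
  interval_cases c
  · exact ⟨⟨rc3_0, rok3_0⟩, uok3_0⟩
  · exact ⟨⟨rc3_1, rok3_1⟩, uok3_1⟩
  · exact ⟨⟨rc3_2, rok3_2⟩, uok3_2⟩
  · exact ⟨⟨rc3_3, rok3_3⟩, uok3_3⟩
  · exact ⟨⟨rc3_4, rok3_4⟩, uok3_4⟩
  · exact ⟨⟨rc3_5, rok3_5⟩, uok3_5⟩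
  · exact ⟨⟨rc3_6, rok3_6⟩, uok3_6⟩
  · exact ⟨⟨rc3_7, rok3_7⟩, uok3_7⟩
  · exact ⟨⟨rc3_8, rok3_8⟩, uok3_8⟩
  · exact ⟨⟨rc3_9, rok3_9⟩, uok3_9⟩
  · exact ⟨⟨rc3_10, rok3_10⟩, uok3_10⟩

theorem ch4 : ChOK 4 := by
  intro c hc
  have hl : (rvs 4).length = 35 := by decide +kernel
  rw [hl] at hc
  interval_cases c
  · exact ⟨⟨rc4_0, rok4_0⟩, uok4_0⟩
  · exact ⟨⟨rc4_1, rok4_1⟩, uok4_1⟩
  · exact ⟨⟨rc4_2, rok4_2⟩, uok4_2⟩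
  · exact ⟨⟨rc4_3, rok4_3⟩, uok4_3⟩
  · exact ⟨⟨rc4_4, rok4_4⟩, uok4_4⟩
  · exact ⟨⟨rc4_5, rok4_5⟩, uok4_5⟩
  · exact ⟨⟨rc4_6, rok4_6⟩, uok4_6⟩
  · exact ⟨⟨rc4_7, rok4_7⟩, uok4_7⟩
  · exact ⟨⟨rc4_8, rok4_8⟩, uok4_8⟩
  · exact ⟨⟨rc4_9, rok4_9⟩, uok4_9⟩
  · exact ⟨⟨rc4_10, rok4_10⟩, uok4_10⟩
  · exact ⟨⟨rc4_11, rok4_11⟩, uok4_11⟩
  · exact ⟨⟨rc4_12, rok4_12⟩, uok4_12⟩
  · exact ⟨⟨rc4_13, rok4_13⟩, uok4_13⟩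
  · exact ⟨⟨rc4_14, rok4_14⟩, uok4_14⟩
  · exact ⟨⟨rc4_15, rok4_15⟩, uok4_15⟩
  · exact ⟨⟨rc4_16, rok4_16⟩, uok4_16⟩
  · exact ⟨⟨rc4_17, rok4_17⟩, uok4_17⟩
  · exact ⟨⟨rc4_18, rok4_18⟩, uok4_18⟩
  · exact ⟨⟨rc4_19, rok4_19⟩, uok4_19⟩
  · exact ⟨⟨rc4_20, rok4_20⟩, uok4_20⟩
  · exact ⟨⟨rc4_21, rok4_21⟩, uok4_21⟩
  · exact ⟨⟨rc4_22, rok4_22⟩, uok4_22⟩
  · exact ⟨⟨rc4_23, rok4_23⟩, uok4_23⟩
  · exact ⟨⟨rc4_24, rok4_24⟩, uok4_24⟩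
  · exact ⟨⟨rc4_25, rok4_25⟩, uok4_25⟩
  · exact ⟨⟨rc4_26, rok4_26⟩, uok4_26⟩
  · exact ⟨⟨rc4_27, rok4_27⟩, uok4_27⟩
  · exact ⟨⟨rc4_28, rok4_28⟩, uok4_28⟩
  · exact ⟨⟨rc4_29, rok4_29⟩, uok4_29⟩
  · exact ⟨⟨rc4_30, rok4_30⟩, uok4_30⟩
  · exact ⟨⟨rc4_31, rok4_31⟩, uok4_31⟩
  · exact ⟨⟨rc4_32, rok4_32⟩, uok4_32⟩
  · exact ⟨⟨rc4_33, rok4_33⟩, uok4_33⟩
  · exact ⟨⟨rc4_34, rok4_34⟩, uok4_34⟩

theorem ch5 : ChOK 5 := by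
  intro c hc
  have hl : (rvs 5).length = 36 := by decide +kernel
  rw [hl] at hc
  interval_cases c
  · exact ⟨⟨rc5_0, rok5_0⟩, uok5_0⟩
  · exact ⟨⟨rc5_1, rok5_1⟩, uok5_1⟩
  · exact ⟨⟨rc5_2, rok5_2⟩, uok5_2⟩
  · exact ⟨⟨rc5_3, rok5_3⟩, uok5_3⟩
  · exact ⟨⟨rc5_4, rok5_4⟩, uok5_4⟩
  · exact ⟨⟨rc5_5, rok5_5⟩, uok5_5⟩
  · exact ⟨⟨rc5_6, rok5_6⟩, uok5_6⟩
  · exact ⟨⟨rc5_7, rok5_7⟩, uok5_7⟩
  · exact ⟨⟨rc5_8, rok5_8⟩, uok5_8⟩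
  · exact ⟨⟨rc5_9, rok5_9⟩, uok5_9⟩
  · exact ⟨⟨rc5_10, rok5_10⟩, uok5_10⟩
  · exact ⟨⟨rc5_11, rok5_11⟩, uok5_11⟩
  · exact ⟨⟨rc5_12, rok5_12⟩, uok5_12⟩
  · exact ⟨⟨rc5_13, rok5_13⟩, uok5_13⟩
  · exact ⟨⟨rc5_14, rok5_14⟩, uok5_14⟩
  · exact ⟨⟨rc5_15, rok5_15⟩, uok5_15⟩
  · exact ⟨⟨rc5_16, rok5_16⟩, uok5_16⟩
  · exact ⟨⟨rc5_17, rok5_17⟩, uok5_17⟩
  · exact ⟨⟨rc5_18, rok5_18⟩, uok5_18⟩
  · exact ⟨⟨rc5_19, rok5_19⟩, uok5_19⟩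
  · exact ⟨⟨rc5_20, rok5_20⟩, uok5_20⟩
  · exact ⟨⟨rc5_21, rok5_21⟩, uok5_21⟩
  · exact ⟨⟨rc5_22, rok5_22⟩, uok5_22⟩
  · exact ⟨⟨rc5_23, rok5_23⟩, uok5_23⟩
  · exact ⟨⟨rc5_24, rok5_24⟩, uok5_24⟩
  · exact ⟨⟨rc5_25, rok5_25⟩, uok5_25⟩
  · exact ⟨⟨rc5_26, rok5_26⟩, uok5_26⟩
  · exact ⟨⟨rc5_27, rok5_27⟩, uok5_27⟩
  · exact ⟨⟨rc5_28, rok5_28⟩, uok5_28⟩
  · exact ⟨⟨rc5_29, rok5_29⟩, uok5_29⟩
  · exact ⟨⟨rc5_30, rok5_30⟩, uok5_30⟩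
  · exact ⟨⟨rc5_31, rok5_31⟩, uok5_31⟩
  · exact ⟨⟨rc5_32, rok5_32⟩, uok5_32⟩
  · exact ⟨⟨rc5_33, rok5_33⟩, uok5_33⟩
  · exact ⟨⟨rc5_34, rok5_34⟩, uok5_34⟩
  · exact ⟨⟨rc5_35, rok5_35⟩, uok5_35⟩

theorem ch6 : ChOK 6 := by
  intro c hc
  have hl : (rvs 6).length = 50 := by decide +kernel
  rw [hl] at hc
  interval_cases c
  · exact ⟨⟨rc6_0, rok6_0⟩, uok6_0⟩
  · exact ⟨⟨rc6_1, rok6_1⟩, uok6_1⟩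
  · exact ⟨⟨rc6_2, rok6_2⟩, uok6_2⟩
  · exact ⟨⟨rc6_3, rok6_3⟩, uok6_3⟩
  · exact ⟨⟨rc6_4, rok6_4⟩, uok6_4⟩
  · exact ⟨⟨rc6_5, rok6_5⟩, uok6_5⟩
  · exact ⟨⟨rc6_6, rok6_6⟩, uok6_6⟩
  · exact ⟨⟨rc6_7, rok6_7⟩, uok6_7⟩
  · exact ⟨⟨rc6_8, rok6_8⟩, uok6_8⟩
  · exact ⟨⟨rc6_9, rok6_9⟩, uok6_9⟩
  · exact ⟨⟨rc6_10, rok6_10⟩, uok6_10⟩
  · exact ⟨⟨rc6_11, rok6_11⟩, uok6_11⟩
  · exact ⟨⟨rc6_12, rok6_12⟩, uok6_12⟩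
  · exact ⟨⟨rc6_13, rok6_13⟩, uok6_13⟩
  · exact ⟨⟨rc6_14, rok6_14⟩, uok6_14⟩
  · exact ⟨⟨rc6_15, rok6_15⟩, uok6_15⟩
  · exact ⟨⟨rc6_16, rok6_16⟩, uok6_16⟩
  · exact ⟨⟨rc6_17, rok6_17⟩, uok6_17⟩
  · exact ⟨⟨rc6_18, rok6_18⟩, uok6_18⟩
  · exact ⟨⟨rc6_19, rok6_19⟩, uok6_19⟩
  · exact ⟨⟨rc6_20, rok6_20⟩, uok6_20⟩
  · exact ⟨⟨rc6_21, rok6_21⟩, uok6_21⟩
  · exact ⟨⟨rc6_22, rok6_22⟩, uok6_22⟩
  · exact ⟨⟨rc6_23, rok6_23⟩, uok6_23⟩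
  · exact ⟨⟨rc6_24, rok6_24⟩, uok6_24⟩
  · exact ⟨⟨rc6_25, rok6_25⟩, uok6_25⟩
  · exact ⟨⟨rc6_26, rok6_26⟩, uok6_26⟩
  · exact ⟨⟨rc6_27, rok6_27⟩, uok6_27⟩
  · exact ⟨⟨rc6_28, rok6_28⟩, uok6_28⟩
  · exact ⟨⟨rc6_29, rok6_29⟩, uok6_29⟩
  · exact ⟨⟨rc6_30, rok6_30⟩, uok6_30⟩
  · exact ⟨⟨rc6_31, rok6_31⟩, uok6_31⟩
  · exact ⟨⟨rc6_32, rok6_32⟩, uok6_32⟩
  · exact ⟨⟨rc6_33, rok6_33⟩, uok6_33⟩
  · exact ⟨⟨rc6_34, rok6_34⟩, uok6_34⟩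
  · exact ⟨⟨rc6_35, rok6_35⟩, uok6_35⟩
  · exact ⟨⟨rc6_36, rok6_36⟩, uok6_36⟩
  · exact ⟨⟨rc6_37, rok6_37⟩, uok6_37⟩
  · exact ⟨⟨rc6_38, rok6_38⟩, uok6_38⟩
  · exact ⟨⟨rc6_39, rok6_39⟩, uok6_39⟩
  · exact ⟨⟨rc6_40, rok6_40⟩, uok6_40⟩
  · exact ⟨⟨rc6_41, rok6_41⟩, uok6_41⟩
  · exact ⟨⟨rc6_42, rok6_42⟩, uok6_42⟩
  · exact ⟨⟨rc6_43, rok6_43⟩, uok6_43⟩
  · exact ⟨⟨rc6_44, rok6_44⟩, uok6_44⟩
  · exact ⟨⟨rc6_45, rok6_45⟩, uok6_45⟩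
  · exact ⟨⟨rc6_46, rok6_46⟩, uok6_46⟩
  · exact ⟨⟨rc6_47, rok6_47⟩, uok6_47⟩
  · exact ⟨⟨rc6_48, rok6_48⟩, uok6_48⟩
  · exact ⟨⟨rc6_49, rok6_49⟩, uok6_49⟩

theorem sizes : ∀ n ∈ [2, 3, 4, 5, 6], ((List.range (nR n)).all fun j =>
    Nat.blt (Nat.div j 32) (rvs n).length &&
      Nat.blt (Nat.mod j 32) ((rvs n).getD (Nat.div j 32) []).length) = true := by decide +kernel

theorem chAll {n : ℕ} (h2 : 2 ≤ n) (h6 : n ≤ 6) : ChOK n := by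
  interval_cases n
  · exact ch2
  · exact ch3
  · exact ch4
  · exact ch5
  · exact ch6

theorem blt_decide (a b : ℕ) : Nat.blt a b = decide (a < b) := by
  rw [Bool.eq_iff_iff, decide_eq_true_iff]
  exact blt_iff a b

/-- the products belong to the cones -/
theorem repK {q : ℝ} (hq1 : 29 / 7 < q) (hq2 : q < 32 / 7) : RepK q := by
  intro n h2 h6 j hj
  have hs := List.all_eq_true.1 (sizes n (mem5 h2 h6)) j (List.mem_range.2 hj)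
  simp only [Bool.and_eq_true] at hs
  have s1 := (blt_iff _ _).1 hs.1
  have s2 := (blt_iff _ _).1 hs.2
  obtain ⟨⟨cs, hcs⟩, hu⟩ := chAll h2 h6 (Nat.div j 32) s1
  obtain ⟨c, hc⟩ := okCh_spec n _ _ cs hcs (Nat.mod j 32) s2
  have hu' := okU_spec n _ _ hu (Nat.mod j 32) s2
  have e1 : ((rvs n).getD (Nat.div j 32) [])[Nat.mod j 32] =
      ((rvs n).getD (Nat.div j 32) []).getD (Nat.mod j 32) (0, 0, 0) := by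
    rw [List.getD_eq_getElem _ _ s2]
  have e2 : 32 * Nat.div j 32 + Nat.mod j 32 = j := Nat.div_add_mod j 32
  rw [e1, e2, blt_decide] at hc
  rw [e1] at hu'
  have hv : okVec (kx n) (dlx n) (nlx n) (vecR n j) = true := by
    have h := hc
    simp only [okRp, Bool.and_eq_true] at h
    exact h.1.1.1
  refine ⟨hv, hu', ?_⟩
  exact okRp_sound (Zx_ok h2 h6) (by norm_num) (by norm_num) hc (by push_cast; linarith)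
    (by push_cast; linarith)

end Pool.Agent.H60.BM
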