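import Pool.Agent.H60.BM.Asm

/-! Symmetries of the cones. -/

set_option autoImplicit false
set_option maxRecDepth 1000000

namespace Pool.Agent.H60.BM

open Finset Polynomial
open Pool.Agent.N467.BL
open Pool.Agent.H60.BL
open Pool.Agent.N467.BL.ChkA (okVec_spec)
open Pool.Agent.TH389.BL (ev evv toP K K_gen K_map Lin)

def rox : ℕ → List ℕ
  | 2 => [0]
  | 3 => [0]
  | 4 => [1, 0, 3, 2]
  | 5 => [4, 3, 1, 0, 2, 5, 9, 10, 6, 7, 8]
  | _ => [13, 12, 10, 9, 11, 4, 3, 1, 6, 0, 2, 5, 7, 8, 15, 16, 19, 14, 17, 18, 20, 22, 23, 21, 25, 24, 28, 26, 27, 30, 31, 33, 29, 34, 32, 37, 40, 39, 36, 35, 38, 42, 41, 44, 45, 47, 43, 48, 46, 51, 54, 53, 50, 49, 52, 56, 57, 59, 55, 60, 58, 61, 68, 74, 77, 78, 79, 63, 62, 65, 64, 81, 80, 66, 67, 70, 69, 71, 72, 73, 76, 75]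

def mix : ℕ → List ℕ
  | 2 => [0]
  | 3 => [0]
  | 4 => [1, 0, 3, 2]
  | 5 => [4, 1, 3, 2, 0, 5, 10, 9, 8, 7, 6]
  | _ => [13, 4, 10, 6, 1, 12, 3, 11, 9, 8, 2, 7, 5, 0, 19, 16, 15, 18, 17, 14, 20, 23, 22, 21, 25, 24, 27, 26, 28, 30, 29, 32, 31, 34, 33, 36, 35, 38, 37, 40, 39, 42, 41, 44, 43, 46, 45, 48, 47, 50, 49, 52, 51, 54, 53, 56, 55, 58, 57, 60, 59, 61, 68, 63, 81, 80, 79, 74, 62, 76, 75, 77, 78, 73, 67, 70, 69, 71, 72, 66, 65, 64]

/-- the family is mapped to itself by a permutation of the coordinates -/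
def okPx (n : ℕ) (σ : ℕ → ℕ) (p : List ℕ) : Bool :=
  decide ((Gx n).map (prm n σ) = p.map fun j => (Gx n).getD j []) &&
    (p.all fun j => decide (j < (Gx n).length)) && ((p.take (wGx n)).all fun j => decide (j < wGx n))

theorem okRx : ∀ n ∈ [2, 3, 4, 5, 6], okPx n (sR n) (rox n) = true := by decide +kernel

theorem okMx : ∀ n ∈ [2, 3, 4, 5, 6], okPx n (sM n) (mix n) = true := by decide +kernel

theorem Gx_len {n : ℕ} (h2 : 2 ≤ n) (h6 : n ≤ 6) : ∀ g ∈ Gx n, g.length = (PQ n).length := by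
  intro g hg
  have h := List.all_eq_true.1 (Gx_ok n (mem5 h2 h6)) g hg
  rw [← (kfacts h2 h6).1]
  exact (okVec_spec h).1

theorem perm_Kx {n : ℕ} (hl : ∀ g ∈ Gx n, g.length = (PQ n).length) (σ : ℕ → ℕ) (p : List ℕ)
    (hσ : ∀ i, (PQ n).length ≤ i → (PQ n).length ≤ σ i) (h : okPx n σ p = true) {q : ℝ} {b : Bool}
    {x : ℕ → ℝ} (hx : K q (Gx n) (wGx n) b x) : K q (Gx n) (wGx n) b (fun i => x (σ i)) := by
  simp only [okPx, Bool.and_eq_true, decide_eq_true_eq] at h
  obtain ⟨⟨h1, h2⟩, h3⟩ := h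
  have hplen : p.length = (Gx n).length := by
    have := congrArg List.length h1
    simpa using this.symm
  have key : ∀ i (hi : i < (Gx n).length), (fun k => evv ((Gx n)[i]) q (σ k)) =
      evv ((Gx n).getD (p.getD i 0) []) q := by
    intro i hi
    have e : prm n σ ((Gx n)[i]) = (Gx n).getD (p.getD i 0) [] := by
      have h4 : ((Gx n).map (prm n σ))[i]? = (p.map fun j => (Gx n).getD j [])[i]? := by rw [h1]
      rw [List.getElem?_map, List.getElem?_map, List.getElem?_eq_getElem hi,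
        List.getElem?_eq_getElem (by omega)] at h4
      simp only [Option.map_some, Option.some.injEq] at h4
      rw [h4, List.getD_eq_getElem _ _ (by omega : i < p.length)]
    rw [← e]
    funext k
    unfold evv prm
    by_cases hk : k < (PQ n).length
    · have h5 : ((List.range (PQ n).length).map fun i_1 => (Gx n)[i].getD (σ i_1) []).getD k [] =
          (Gx n)[i].getD (σ k) [] := by
        simp only [List.getD_eq_getElem?_getD, List.getElem?_map, List.getElem?_range hk,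
          Option.map_some, Option.getD_some]
      rw [h5]
    · have h5 : ((List.range (PQ n).length).map fun i_1 => (Gx n)[i].getD (σ i_1) []).getD k [] =
          [] := by
        apply List.getD_eq_default
        rw [List.length_map, List.length_range]
        omega
      have h6 : (Gx n)[i].getD (σ k) [] = [] := by
        apply List.getD_eq_default
        rw [hl _ (List.getElem_mem hi)]
        exact hσ k (by omega)
      rw [h5, h6]
  have lin : Lin (fun (y : ℕ → ℝ) k => y (σ k)) := ⟨fun _ _ => rfl, fun _ _ => rfl⟩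
  refine K_map lin ?_ ?_ hx
  · intro g hg
    obtain ⟨i, hi, rfl⟩ := List.mem_take_iff_getElem.1 hg
    have hi' : i < (Gx n).length := by omega
    change K q (Gx n) (wGx n) true (fun k => evv ((Gx n)[i]) q (σ k))
    rw [key i hi']
    have h5 : p.getD i 0 ∈ p.take (wGx n) := by
      rw [List.getD_eq_getElem _ _ (by omega : i < p.length), List.mem_take_iff_getElem]
      exact ⟨i, by omega, rfl⟩
    have h6 := List.all_eq_true.1 h3 _ h5
    have h7 := List.all_eq_true.1 h2 _ (List.mem_of_mem_take h5)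
    rw [decide_eq_true_eq] at h6 h7
    have := K_gen (q := q) (G := Gx n) (w := wGx n) (p.getD i 0) h7
    rwa [decide_eq_true h6] at this
  · intro g hg
    obtain ⟨i, hi, rfl⟩ := List.mem_iff_getElem.1 hg
    change K q (Gx n) (wGx n) false (fun k => evv ((Gx n)[i]) q (σ k))
    rw [key i hi]
    have h5 : p.getD i 0 ∈ p := by
      rw [List.getD_eq_getElem _ _ (by omega : i < p.length)]
      exact List.getElem_mem _
    have h7 := List.all_eq_true.1 h2 _ h5
    rw [decide_eq_true_eq] at h7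
    have h8 := K_gen (q := q) (G := Gx n) (w := wGx n) (p.getD i 0) h7
    cases hd : decide (p.getD i 0 < wGx n) with
    | true => rw [hd] at h8; exact K.weak _ h8
    | false => rw [hd] at h8; exact h8

theorem rot_Kx {n : ℕ} (h2 : 2 ≤ n) (h6 : n ≤ 6) {q : ℝ} {b : Bool} {x : ℕ → ℝ}
    (hx : K q (Gx n) (wGx n) b x) : K q (Gx n) (wGx n) b (fun i => x (sR n i)) :=
  perm_Kx (Gx_len h2 h6) (sR n) (rox n) (sR_big h2 h6) (okRx n (mem5 h2 h6)) hx

theorem mir_Kx {n : ℕ} (h2 : 2 ≤ n) (h6 : n ≤ 6) {q : ℝ} {b : Bool} {x : ℕ → ℝ}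
    (hx : K q (Gx n) (wGx n) b x) : K q (Gx n) (wGx n) b (fun i => x (sM n i)) :=
  perm_Kx (Gx_len h2 h6) (sM n) (mix n) (sM_big h2 h6) (okMx n (mem5 h2 h6)) hx

/-- the permutation with the number `k` -/
def pf (n k i : ℕ) : ℕ := (sR n)^[k / 2] ((sM n)^[k % 2] i)

theorem Fps_ok : ∀ n ∈ [2, 3, 4, 5, 6], ((List.range (2 * n)).all fun k =>
    decide ((Fps n).getD k [] = (List.range (kx n)).map (pf n k))) = true := by decide +kernel

theorem iter_K {n : ℕ} {q : ℝ} {b : Bool} (σ : ℕ → ℕ)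
    (hσ : ∀ x : ℕ → ℝ, K q (Gx n) (wGx n) b x → K q (Gx n) (wGx n) b (fun i => x (σ i))) :
    ∀ (m : ℕ) (x : ℕ → ℝ), K q (Gx n) (wGx n) b x → K q (Gx n) (wGx n) b (fun i => x (σ^[m] i))
  | 0, x, hx => hx
  | m + 1, x, hx => by
    have h := hσ _ (iter_K σ hσ m x hx)
    have e : (fun i => x (σ^[m + 1] i)) = fun i => (fun i => x (σ^[m] i)) (σ i) := by
      funext i
      simp only [Function.iterate_succ_apply]
    rw [e]
    exact h

theorem iter_big {d : ℕ} {σ : ℕ → ℕ} (h : ∀ i, d ≤ i → d ≤ σ i) : ∀ m i, d ≤ i → d ≤ σ^[m] i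
  | 0, i, hi => hi
  | m + 1, i, hi => by
    rw [Function.iterate_succ_apply]
    exact iter_big h m _ (h i hi)

theorem vecP_K {n j k : ℕ} (h2 : 2 ≤ n) (h6 : n ≤ 6) (hk : k < 2 * n)
    (hv : okVec (kx n) (dlx n) (nlx n) (vecR n j) = true) {q : ℝ} {b : Bool}
    (hx : K q (Gx n) (wGx n) b (evv (vecR n j) q)) :
    K q (Gx n) (wGx n) b (evv (vecP n j k) q) := by
  have h1 := iter_K (sR n) (fun x => rot_Kx h2 h6) (k / 2) _ hx
  have h3 := iter_K (sM n) (fun x => mir_Kx h2 h6) (k % 2) _ h1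
  have h4 : (fun i => evv (vecR n j) q ((sR n)^[k / 2] ((sM n)^[k % 2] i))) =
      evv (vecP n j k) q := by
    have h5 := Fps_ok n (mem5 h2 h6)
    rw [List.all_eq_true] at h5
    have h7 := of_decide_eq_true (h5 k (List.mem_range.2 hk))
    have h8 := (okVec_spec hv).1
    obtain ⟨b1, -, -, -, -, -⟩ := kfacts h2 h6
    funext i
    unfold evv vecP prV
    rw [h7, List.map_map]
    by_cases hi : i < kx n
    · rw [List.getD_eq_getElem (List.map _ _) _ (by rw [List.length_map, List.length_range]; exact hi),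
        List.getElem_map, List.getElem_range]
      rfl
    · have h9 : kx n ≤ (sR n)^[k / 2] ((sM n)^[k % 2] i) := by
        rw [b1]
        exact iter_big (sR_big h2 h6) _ _ (iter_big (sM_big h2 h6) _ _ (by omega))
      rw [List.getD_eq_default _ _ (by omega), List.getD_eq_default (List.map _ _) _
        (by rw [List.length_map, List.length_range]; omega)]
  rw [← h4]
  exact h3

end Pool.Agent.H60.BM
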